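import Pool.Agent.Y947.RL.Stm3

/-!
# Project RL: degrees over `K(μ_∞)`
-/

set_option autoImplicit false

namespace Pool.Agent.Y932.RL.Tow

open IntermediateField Polynomial
open Pool.Agent.Y947.RL (QAb)

theorem tow_gen (A K : IntermediateField ℚ ℂ) [FiniteDimensional ℚ K] (z : ℂ)
    (hz : IsAlgebraic ℚ z) : (minpoly A z).natDegree ≤
      Module.finrank ℚ K * (minpoly (K ⊔ A : IntermediateField ℚ ℂ) z).natDegree := by
  have hzA : IsIntegral A z := (hz.isIntegral).tower_top
  set L : IntermediateField A ℂ := adjoin A (K : Set ℂ) with hL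
  have hzL : IsIntegral L z := hzA.tower_top
  -- the degree of `L`
  have hrank : Module.rank A L ≤ Module.rank ℚ K := adjoin_rank_le_of_isAlgebraic_right A K
  have hlt : Module.rank A L < Cardinal.aleph0 := lt_of_le_of_lt hrank (Module.rank_lt_aleph0 ℚ K)
  have hfd : FiniteDimensional A L := Module.finite_of_rank_eq_nat (Cardinal.cast_toNat_of_lt_aleph0 hlt).symm
  have hfin : Module.finrank A L ≤ Module.finrank ℚ K :=
    Cardinal.toNat_le_toNat hrank (Module.rank_lt_aleph0 ℚ K)
  -- the tower
  have hfdz : FiniteDimensional L L⟮z⟯ := adjoin.finiteDimensional hzL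
  have h1 : Module.finrank A L⟮z⟯ = Module.finrank A L * (minpoly L z).natDegree := by
    rw [← adjoin.finrank hzL, Module.finrank_mul_finrank]
  have hfdA : FiniteDimensional A L⟮z⟯ := FiniteDimensional.trans A L L⟮z⟯
  have hle : A⟮z⟯ ≤ (L⟮z⟯).restrictScalars A := by
    rw [adjoin_simple_le_iff]
    exact mem_adjoin_simple_self L z
  have h2 : (minpoly A z).natDegree ≤ Module.finrank A L⟮z⟯ := by
    rw [← adjoin.finrank hzA]
    have hfd' : FiniteDimensional A ((L⟮z⟯).restrictScalars A) := hfdA
    exact LinearMap.finrank_le_finrank_of_injective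
      (f := (IntermediateField.inclusion hle).toLinearMap) (IntermediateField.inclusion hle).injective
  -- the two minimal polynomials
  have hKA : K ⊔ A ≤ L.restrictScalars ℚ := by
    refine sup_le (fun x hx => subset_adjoin A _ hx) (fun x hx => ?_)
    exact L.algebraMap_mem ⟨x, hx⟩
  let e : (K ⊔ A : IntermediateField ℚ ℂ) →+* L := (IntermediateField.inclusion hKA).toRingHom
  have he : (algebraMap L ℂ).comp e = algebraMap (K ⊔ A : IntermediateField ℚ ℂ) ℂ := by
    ext x
    rfl
  have hzKA : IsIntegral (K ⊔ A : IntermediateField ℚ ℂ) z := (hz.isIntegral).tower_top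
  have h3 : (minpoly L z).natDegree ≤ (minpoly (K ⊔ A : IntermediateField ℚ ℂ) z).natDegree := by
    have hm := minpoly.monic hzKA
    have h4 : aeval z ((minpoly (K ⊔ A : IntermediateField ℚ ℂ) z).map e) = 0 := by
      rw [aeval_def, eval₂_map, he]
      exact minpoly.aeval _ z
    have h5 := natDegree_le_of_dvd (minpoly.dvd L z h4) (hm.map e).ne_zero
    rwa [natDegree_map] at h5
  calc (minpoly A z).natDegree ≤ Module.finrank A L * (minpoly L z).natDegree := h1 ▸ h2
    _ ≤ Module.finrank ℚ K * (minpoly (K ⊔ A : IntermediateField ℚ ℂ) z).natDegree :=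
      Nat.mul_le_mul hfin h3

theorem tow (K : IntermediateField ℚ ℂ) [FiniteDimensional ℚ K] (z : ℂ) (hz : IsAlgebraic ℚ z) :
    (minpoly QAb z).natDegree ≤
      Module.finrank ℚ K * (minpoly (K ⊔ QAb : IntermediateField ℚ ℂ) z).natDegree :=
  tow_gen QAb K z hz

end Pool.Agent.Y932.RL.Tow
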